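import Pool.Agent.H918.G.Stm

/-! PROJECT PF (helper918), task PF-TEND, by helper800. -/

set_option autoImplicit false

open Polynomial FF Pool.Agent.W603.LV Filter Topology Metric
open scoped Polynomial.Bivariate

namespace Pool.Agent.H918.PF

variable {L : Type} [Field L] [Algebra ℂ L] {c : Place ℂ L} {ev : ℂ[X][Y] →ₐ[ℂ] L} {P : ℂ[X][Y]}

/-- PF-TEND: a function with a zero at the place `c` tends to `0` at infinity. (Apply `bound_inf` to
`h ^ e * Z`, where `Z` has order `-e` at `c`.) -/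
theorem tend_inf (hBI : S_BINF) [IsFF ℂ L] (hM : Model c ev P) {h : L} (hh : Ge c 1 h) {ε : ℝ} (hε : 0 < ε) :
    ∃ r : ℝ, ∀ (R : ℂ[X][Y]) (S : ℂ[X]), h * ev (C S) = ev R → ∀ z y : ℂ, r ≤ ‖z‖ →
      evalEval z y P = 0 → S.eval z ≠ 0 → ‖evalEval z y R‖ ≤ ε * ‖S.eval z‖ := by
  obtain ⟨e, he⟩ : ∃ e : ℕ, c.ord (ev (C X)) = -(e : ℤ) :=
    ⟨(-c.ord (ev (C X))).toNat, by have := hM.pole; omega⟩
  have he0 : e ≠ 0 := by
    rintro rfl
    have := hM.pole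
    rw [he] at this
    simp at this
  have hge : Ge c 0 (h ^ e * ev (C X)) := by
    have h1 : Ge c (-(e : ℤ)) (ev (C X)) := Or.inr he.ge
    have h2 := (hh.pow e).mul h1
    exact h2.mono (by ring_nf; rfl)
  obtain ⟨K, r, hK⟩ := hBI L c ev P hM _ hge
  refine ⟨max r (|K| / ε ^ e + 1), fun R S hRS z y hz hy hS => ?_⟩
  have hεe : 0 < ε ^ e := pow_pos hε e
  have hz1 : r ≤ ‖z‖ := (le_max_left _ _).trans hz
  have hz2 : |K| / ε ^ e + 1 ≤ ‖z‖ := (le_max_right _ _).trans hz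
  have hz0 : 0 < ‖z‖ := by
    have := div_nonneg (abs_nonneg K) hεe.le
    linarith
  have hKz : |K| ≤ ε ^ e * ‖z‖ := by
    have h1 : |K| / ε ^ e ≤ ‖z‖ := by linarith
    rwa [div_le_iff₀' hεe] at h1
  have h1 := hK (R ^ e * C X) (S ^ e) (by
    rw [map_mul ev, map_pow ev, ← hRS, C_pow, map_pow ev, mul_pow]
    ring) z y hz1 hy (by rw [eval_pow]; exact pow_ne_zero e hS)
  have h2 : evalEval z y (R ^ e * C X) = evalEval z y R ^ e * z := by
    rw [evalEval_mul, evalEval_pow, evalEval_C, eval_X]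
  rw [h2, eval_pow, norm_mul, norm_pow, norm_pow] at h1
  have h3 : ‖evalEval z y R‖ ^ e * ‖z‖ ≤ (ε * ‖S.eval z‖) ^ e * ‖z‖ := by
    calc ‖evalEval z y R‖ ^ e * ‖z‖ ≤ K * ‖S.eval z‖ ^ e := h1
      _ ≤ |K| * ‖S.eval z‖ ^ e := mul_le_mul_of_nonneg_right (le_abs_self K) (by positivity)
      _ ≤ (ε ^ e * ‖z‖) * ‖S.eval z‖ ^ e := mul_le_mul_of_nonneg_right hKz (by positivity)
      _ = (ε * ‖S.eval z‖) ^ e * ‖z‖ := by rw [mul_pow]; ring
  have h4 := le_of_mul_le_mul_right h3 hz0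
  exact (pow_le_pow_iff_left₀ (norm_nonneg _) (by positivity) he0).1 h4

end Pool.Agent.H918.PF
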